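import Pool.Agent.Lib.MP_66fb70_lc.GapB

/-! The instance complexity conjecture is an all-or-nothing statement: its strongest form, its
weakest form on a thin class of sets and the printable subset property are equivalent. -/

namespace Pool.Agent.Results.MP_66fb70_lc.AllOrNothing

open Pool.Agent.Lib.MP_66fb70_lc

theorem result (U : Machine) (hU : Optimal U) (f : ℕ → ℕ) (hf : RecFun f) (hm : Monotone f)
    (hu : ∀ b, ∃ k, b ≤ f k) :
    [∀ A : List Bool → Bool, Recursive A → A ∉ N68a2faeb.P → HasHardInstances U A,
      ∀ A : List Bool → Bool, Recursive A → A ∉ N68a2faeb.P → HasGapInstances U f A,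
      ∀ A : List Bool → Bool, Recursive A → A ∉ N68a2faeb.P → Selective A → LengthCut A →
        HasGapInstances U f A,
      ∀ S ∈ N68a2faeb.P, {x | S x = true}.Infinite →
        ∃ T ⊆ {x | S x = true}, T.Infinite ∧ Printable T].TFAE := by
  tfae_have 1 → 4 := printable_of_hard U hU
  tfae_have 4 → 1 := hard_of_printable U hU
  tfae_have 4 → 2 := gap_of_printable U hU hf hm
  tfae_have 2 → 3 := fun h A h1 h2 _ _ => h A h1 h2
  tfae_have 3 → 4 := printable_of_gap U hU hf hm hu
  tfae_finish

end Pool.Agent.Results.MP_66fb70_lc.AllOrNothing
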